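import Pool.Agent.Helper85_Idx.Stmts

/-!
# Modules MCLD and MTIN: the matrix words
-/

set_option autoImplicit false

namespace Pool.Agent.Idx.H70

open Pool.Agent.Idx

section Pairs

variable {α β : Type}

theorem fm_len (L : List α) (f g : α → β) :
    (L.flatMap (fun x => [f x, g x])).length = 2 * L.length := by
  induction L with
  | nil => simp
  | cons a L ih => simp only [List.flatMap_cons, List.length_append, ih, List.length_cons,
      List.length_nil]; ring

theorem fm_get (L : List α) (f g : α → β) (k : ℕ) :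
    (L.flatMap (fun x => [f x, g x]))[2 * k]? = (L[k]?).map f ∧
    (L.flatMap (fun x => [f x, g x]))[2 * k + 1]? = (L[k]?).map g := by
  induction L generalizing k with
  | nil => simp
  | cons a L ih =>
    rcases k with _ | k
    · simp
    · have := ih k
      simp only [List.flatMap_cons, List.cons_append, List.nil_append]
      rw [show 2 * (k + 1) = 2 * k + 1 + 1 by ring]
      simpa using this

end Pairs

/-- row order -/
def lrow (m₀ : ℕ) : List (Fin m₀ × Fin m₀) :=
  (List.finRange m₀).flatMap (fun i => (List.finRange m₀).map (fun j => (i, j)))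

/-- reverse column order -/
def lcol (m₀ : ℕ) : List (Fin m₀ × Fin m₀) :=
  (List.finRange m₀).reverse.flatMap (fun j => (List.finRange m₀).reverse.map (fun i => (i, j)))

theorem mrow_eq (S : Setup) (m₀ m : ℕ) : mrow S m₀ m = (lrow m₀).flatMap
    (fun e => [Seg.pay e false, Seg.con (List.replicate m (S.ni true))]) := by
  unfold mrow lrow
  rw [List.flatMap_assoc]
  simp only [List.flatMap_map]

theorem mcol_eq (S : Setup) (m₀ m : ℕ) : mcol S m₀ m = (lcol m₀).flatMap
    (fun e => [Seg.con (List.replicate m (S.pl true)), Seg.pay e true]) := by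
  unfold mcol lcol
  rw [List.flatMap_assoc]
  simp only [List.flatMap_map]

theorem lrow_len (m₀ : ℕ) : (lrow m₀).length = m₀ ^ 2 := by
  unfold lrow
  rw [List.length_flatMap]
  simp [sq]

theorem lcol_len (m₀ : ℕ) : (lcol m₀).length = m₀ ^ 2 := by
  unfold lcol
  rw [List.length_flatMap]
  simp [sq]

theorem mem_lrow {m₀ : ℕ} (e : Fin m₀ × Fin m₀) : e ∈ lrow m₀ := by
  unfold lrow
  simp only [List.mem_flatMap, List.mem_map, List.mem_finRange, true_and]
  exact ⟨e.1, e.2, rfl⟩

theorem mem_lcol {m₀ : ℕ} (e : Fin m₀ × Fin m₀) : e ∈ lcol m₀ := by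
  unfold lcol
  simp only [List.mem_flatMap, List.mem_map, List.mem_reverse, List.mem_finRange, true_and]
  exact ⟨e.2, e.1, rfl⟩

theorem mrow_len (S : Setup) (m₀ m : ℕ) : (mrow S m₀ m).length = 2 * m₀ ^ 2 := by
  rw [mrow_eq, fm_len, lrow_len]

theorem mcol_len (S : Setup) (m₀ m : ℕ) : (mcol S m₀ m).length = 2 * m₀ ^ 2 := by
  rw [mcol_eq, fm_len, lcol_len]

theorem mseg_len (S : Setup) (m₀ m : ℕ) : (mseg S m₀ m).length = 4 * m₀ ^ 2 := by
  unfold mseg
  rw [List.length_append, mrow_len, mcol_len]; ring

theorem mem_mrow {S : Setup} {m₀ m : ℕ} {x : Seg (Fin m₀ × Fin m₀) S.T} :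
    x ∈ mrow S m₀ m ↔ ∃ e, x = Seg.pay e false ∨ x = Seg.con (List.replicate m (S.ni true)) ∧
      True := by
  rw [mrow_eq]
  simp only [List.mem_flatMap, List.mem_cons, List.not_mem_nil, or_false, and_true]
  exact ⟨fun ⟨e, _, h⟩ => ⟨e, h⟩, fun ⟨e, h⟩ => ⟨e, mem_lrow e, h⟩⟩

theorem mem_mcol {S : Setup} {m₀ m : ℕ} {x : Seg (Fin m₀ × Fin m₀) S.T} :
    x ∈ mcol S m₀ m ↔ ∃ e, x = Seg.con (List.replicate m (S.pl true)) ∨ x = Seg.pay e true ∧
      True := by
  rw [mcol_eq]
  simp only [List.mem_flatMap, List.mem_cons, List.not_mem_nil, or_false, and_true]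
  exact ⟨fun ⟨e, _, h⟩ => ⟨e, h⟩, fun ⟨e, h⟩ => ⟨e, mem_lcol e, h⟩⟩

theorem slen_mseg (S : Setup) (m₀ m : ℕ) : ∀ x ∈ mseg S m₀ m, slen S m x = m := by
  intro x hx
  unfold mseg at hx
  rw [List.mem_append, mem_mrow, mem_mcol] at hx
  rcases hx with ⟨e, h | h⟩ | ⟨e, h | h⟩
  · rw [h]; rfl
  · rw [h.1]; simp [slen]
  · rw [h]; simp [slen]
  · rw [h.1]; rfl

theorem start_mseg (S : Setup) (m₀ m i : ℕ) (hi : i ≤ 4 * m₀ ^ 2) :
    start S m (mseg S m₀ m) i = i * m := by
  unfold start
  have h1 : ((mseg S m₀ m).take i).map (slen S m) = List.replicate i m := by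
    rw [List.eq_replicate_iff]
    constructor
    · rw [List.length_map, List.length_take, mseg_len]; omega
    · intro b hb
      rw [List.mem_map] at hb
      obtain ⟨x, hx, rfl⟩ := hb
      exact slen_mseg S m₀ m x (List.mem_of_mem_take hx)
  rw [h1, List.sum_replicate]; simp

theorem pay_false {S : Setup} {m₀ m i : ℕ} {e : Fin m₀ × Fin m₀}
    (h : (mseg S m₀ m)[i]? = some (Seg.pay e false)) : i < 2 * m₀ ^ 2 := by
  by_contra hc
  push Not at hc
  unfold mseg at h
  rw [List.getElem?_append_right (by rw [mrow_len]; exact hc)] at h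
  have := List.mem_of_getElem? h
  rw [mem_mcol] at this
  rcases this with ⟨e', h' | h'⟩
  · exact absurd h' (by simp)
  · exact absurd h'.1 (by simp)

theorem pay_true {S : Setup} {m₀ m i : ℕ} {e : Fin m₀ × Fin m₀}
    (h : (mseg S m₀ m)[i]? = some (Seg.pay e true)) : 2 * m₀ ^ 2 ≤ i ∧ i < 4 * m₀ ^ 2 := by
  constructor
  · by_contra hc
    push Not at hc
    unfold mseg at h
    rw [List.getElem?_append_left (by rw [mrow_len]; exact hc)] at h
    have := List.mem_of_getElem? h
    rw [mem_mrow] at this
    rcases this with ⟨e', h' | h'⟩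
    · exact absurd h' (by simp)
    · exact absurd h'.1 (by simp)
  · by_contra hc
    push Not at hc
    rw [List.getElem?_eq_none (by rw [mseg_len]; exact hc)] at h
    exact absurd h (by simp)

theorem ex_pay (S : Setup) (m₀ m : ℕ) (e : Fin m₀ × Fin m₀) (b : Bool) :
    ∃ i : ℕ, (mseg S m₀ m)[i]? = some (Seg.pay e b) := by
  apply List.getElem?_of_mem
  unfold mseg
  rw [List.mem_append, mem_mrow, mem_mcol]
  cases b
  · exact Or.inl ⟨e, Or.inl rfl⟩
  · exact Or.inr ⟨e, Or.inr ⟨rfl, trivial⟩⟩

theorem pay_even (S : Setup) {m₀ m k : ℕ} (hk : k < m₀ ^ 2) :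
    ∃ e, (mseg S m₀ m)[2 * k]? = some (Seg.pay e false) := by
  unfold mseg
  rw [List.getElem?_append_left (by rw [mrow_len]; omega), mrow_eq, (fm_get _ _ _ k).1]
  have : k < (lrow m₀).length := by rw [lrow_len]; exact hk
  rw [List.getElem?_eq_getElem this]
  exact ⟨_, rfl⟩

/-- a closed big interval contains the midpoint -/
theorem mid {S : Setup} {m₀ p l s t : ℕ} (hl : 1 ≤ l)
    (hB : BigI S p l (mseg S m₀ (p * l)) s t) (hC : ClosedI S p l (mseg S m₀ (p * l)) s t) :
    s < 2 * m₀ ^ 2 * (p * l) ∧ 2 * m₀ ^ 2 * (p * l) < t := by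
  obtain ⟨i, e, b, j, h1, hj, hs, ht⟩ := hB
  obtain ⟨i', h2⟩ := ex_pay S m₀ (p * l) e (!b)
  have h3 := hC i i' e b j h1 h2 hj hs ht
  unfold blk at hs ht h3
  have key : ∀ (i : ℕ) (b : Bool), (mseg S m₀ (p * l))[i]? = some (Seg.pay e b) →
      (b = false → start S (p * l) (mseg S m₀ (p * l)) i + (if b then p - 1 - j else j) * l + l
        ≤ 2 * m₀ ^ 2 * (p * l)) ∧
      (b = true → 2 * m₀ ^ 2 * (p * l) ≤
        start S (p * l) (mseg S m₀ (p * l)) i + (if b then p - 1 - j else j) * l) := by
    intro i b h
    cases b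
    · refine ⟨fun _ => ?_, fun h => absurd h (by simp)⟩
      have h4 := pay_false h
      rw [start_mseg _ _ _ _ (by omega)]
      simp only [Bool.false_eq_true, if_false]
      have h5 : j * l + l ≤ p * l := by
        calc j * l + l = (j + 1) * l := by ring
          _ ≤ p * l := Nat.mul_le_mul_right _ hj
      calc i * (p * l) + j * l + l ≤ i * (p * l) + p * l := by omega
        _ = (i + 1) * (p * l) := by ring
        _ ≤ 2 * m₀ ^ 2 * (p * l) := Nat.mul_le_mul_right _ h4
    · refine ⟨fun h => absurd h (by simp), fun _ => ?_⟩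
      have h4 := pay_true h
      rw [start_mseg _ _ _ _ (by omega)]
      calc 2 * m₀ ^ 2 * (p * l) ≤ i * (p * l) := Nat.mul_le_mul_right _ h4.1
        _ ≤ _ := Nat.le_add_right _ _
  have k1 := key i b h1
  have k2 := key i' (!b) h2
  cases b
  · have a1 := k1.1 rfl
    have a2 := k2.2 rfl
    omega
  · have a1 := k1.2 rfl
    have a2 := k2.1 rfl
    omega

theorem mcld : McldStmt := by
  intro S m₀ p l _ hl h s t s' t' hst hts hs't' ht' B1 B2 C1 C2
  have := mid hl B1 C1
  have := mid hl B2 C2
  omega

/-! ## MTIN -/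

theorem cnt_mod (a k : ℕ) : ((Finset.range (k * (2 * a))).filter
    (fun j => j % (2 * a) < a)).card = k * a := by
  rcases Nat.eq_zero_or_pos a with rfl | ha
  · simp
  induction k with
  | zero => simp
  | succ k ih =>
    have h1 : (Finset.range ((k + 1) * (2 * a))).filter (fun j => j % (2 * a) < a) =
        (Finset.range (k * (2 * a))).filter (fun j => j % (2 * a) < a) ∪
          Finset.Ico (k * (2 * a)) (k * (2 * a) + a) := by
      ext j
      simp only [Finset.mem_filter, Finset.mem_range, Finset.mem_union, Finset.mem_Ico]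
      have h2 := Nat.div_add_mod j (2 * a)
      have h3 := Nat.mod_lt j (show 0 < 2 * a by omega)
      constructor
      · rintro ⟨h4, h5⟩
        by_cases h6 : j < k * (2 * a)
        · exact Or.inl ⟨h6, h5⟩
        · right
          refine ⟨by omega, ?_⟩
          have h7 : j / (2 * a) ≤ k := by
            have : j / (2 * a) < k + 1 := by
              rw [Nat.div_lt_iff_lt_mul (by omega)]; exact h4
            omega
          have h8 : 2 * a * (j / (2 * a)) ≤ 2 * a * k := Nat.mul_le_mul_left _ h7
          have h9 : 2 * a * k = k * (2 * a) := by ring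
          omega
      · rintro (⟨h4, h5⟩ | ⟨h4, h5⟩)
        · refine ⟨?_, h5⟩
          calc j < k * (2 * a) := h4
            _ ≤ (k + 1) * (2 * a) := Nat.mul_le_mul_right _ (by omega)
        · constructor
          · calc j < k * (2 * a) + a := h5
              _ ≤ (k + 1) * (2 * a) := by ring_nf; omega
          · obtain ⟨d, rfl⟩ := Nat.exists_eq_add_of_le h4
            rw [show k * (2 * a) + d = d + (2 * a) * k by ring, Nat.add_mul_mod_self_left,
              Nat.mod_eq_of_lt (by omega)]
            omega
    rw [h1, Finset.card_union_of_disjoint, ih, Nat.card_Ico]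
    · ring_nf; omega
    · rw [Finset.disjoint_left]
      intro j hj hj'
      simp only [Finset.mem_filter, Finset.mem_range, Finset.mem_Ico] at hj hj'
      omega

theorem sum_mmu (m₀ m : ℕ) (A : Finset ℕ) : ∑ j ∈ A, mmu m₀ m j =
    ((A.filter (fun j => j < 2 * m * m₀ ^ 2 ∧ j % (2 * m) < m)).card : ℝ) *
      (1 / ((m₀ : ℝ) ^ 2 * m)) := by
  unfold mmu
  rw [← Finset.sum_filter, Finset.sum_const, nsmul_eq_mul]

theorem mtin : MtinStmt := by
  intro S m₀ p l hm₀ hp hl
  have hm : 1 ≤ p * l := Nat.mul_pos hp hl
  have hmR : (0 : ℝ) < (m₀ : ℝ) := by exact_mod_cast hm₀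
  have hpR : (0 : ℝ) < (p : ℝ) := by exact_mod_cast hp
  have hlR : (0 : ℝ) < (l : ℝ) := by exact_mod_cast hl
  constructor
  · rw [sum_mmu]
    have h1 : (Finset.range (4 * m₀ ^ 2 * (p * l))).filter
        (fun j => j < 2 * (p * l) * m₀ ^ 2 ∧ j % (2 * (p * l)) < p * l) =
        (Finset.range (m₀ ^ 2 * (2 * (p * l)))).filter (fun j => j % (2 * (p * l)) < p * l) := by
      ext j
      simp only [Finset.mem_filter, Finset.mem_range]
      have h2 : 2 * (p * l) * m₀ ^ 2 = m₀ ^ 2 * (2 * (p * l)) := by ring
      have h3 : 4 * m₀ ^ 2 * (p * l) = 2 * (m₀ ^ 2 * (2 * (p * l))) := by ring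
      rw [h2, h3]
      constructor
      · rintro ⟨_, h⟩; exact h
      · rintro ⟨h4, h5⟩; exact ⟨by omega, h4, h5⟩
    rw [h1, cnt_mod]
    push_cast
    field_simp
  · intro s t hst ht hB
    rw [sum_mmu]
    set A := (Finset.Ico s t).filter
      (fun j => j < 2 * (p * l) * m₀ ^ 2 ∧ j % (2 * (p * l)) < p * l) with hA
    have hcard : A.card ≤ 2 * l := by
      -- at most two blocks
      have hfib : ∀ c : ℕ, (A.filter (fun j => j / l = c)).card ≤ l := by
        intro c
        have : A.filter (fun j => j / l = c) ⊆ Finset.Ico (c * l) (c * l + l) := by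
          intro j hj
          rw [Finset.mem_filter] at hj
          rw [Finset.mem_Ico]
          have h1 := Nat.div_add_mod j l
          have h2 := Nat.mod_lt j (show 0 < l by omega)
          rw [hj.2] at h1
          have h3 : l * c = c * l := by ring
          omega
        calc _ ≤ _ := Finset.card_le_card this
          _ = l := by rw [Nat.card_Ico]; omega
      have hC : (A.image (fun j => j / l)).card ≤ 2 := by
        by_contra hc
        push Not at hc
        obtain ⟨a, ha, b, hb, c, hc', hab, hac, hbc⟩ := Finset.two_lt_card.mp hc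
        -- order them
        have main : ∀ x y z : ℕ, x ∈ A.image (fun j => j / l) → y ∈ A.image (fun j => j / l) →
            z ∈ A.image (fun j => j / l) → x < y → y < z → False := by
          intro x y z hx hy hz hxy hyz
          rw [Finset.mem_image] at hx hy hz
          obtain ⟨jx, hjx, rfl⟩ := hx
          obtain ⟨jy, hjy, rfl⟩ := hy
          obtain ⟨jz, hjz, rfl⟩ := hz
          simp only [hA, Finset.mem_filter, Finset.mem_Ico] at hjx hjy hjz
          apply hB
          have ex : jx < jy / l * l := by
            have := Nat.lt_mul_of_div_lt hxy (by omega)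
            rw [mul_comm] at this
            rw [mul_comm]; linarith [this]
          have ez : jy / l * l + l ≤ jz := by
            have h1 := Nat.div_mul_le_self jz l
            have h2 : (jy / l + 1) * l ≤ jz / l * l := Nat.mul_le_mul_right _ hyz
            have h3 : (jy / l + 1) * l = jy / l * l + l := by ring
            omega
          -- the segment
          set c := jy / l with hc
          have hmod : jy % (2 * (p * l)) < p * l := hjy.2.2
          have hq : jy / (2 * (p * l)) < m₀ ^ 2 := by
            rw [Nat.div_lt_iff_lt_mul (by omega)]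
            have : m₀ ^ 2 * (2 * (p * l)) = 2 * (p * l) * m₀ ^ 2 := by ring
            omega
          set q := jy / (2 * (p * l)) with hqdef
          set r := jy % (2 * (p * l)) with hrdef
          have hjq : jy = 2 * (p * l) * q + r := (Nat.div_add_mod jy (2 * (p * l))).symm
          have hcq : c = 2 * p * q + r / l := by
            rw [hc, hjq, show 2 * (p * l) * q + r = r + l * (2 * p * q) by ring,
              Nat.add_mul_div_left _ _ (by omega)]
            ring
          have hrl : r / l < p := by
            rw [Nat.div_lt_iff_lt_mul (by omega)]; exact hmod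
          obtain ⟨e, he⟩ := pay_even S (m := p * l) hq
          have hst' : start S (p * l) (mseg S m₀ (p * l)) (2 * q) = 2 * q * (p * l) :=
            start_mseg S m₀ (p * l) (2 * q) (by omega)
          have hblk : blk S p l (mseg S m₀ (p * l)) (2 * q) false (r / l) = c * l := by
            unfold blk
            rw [hst', hcq]
            simp only [Bool.false_eq_true, if_false]
            ring
          refine ⟨2 * q, e, false, r / l, he, hrl, ?_, ?_⟩
          · rw [hblk]; omega
          · rw [hblk]; omega
        rcases lt_trichotomy a b with h | h | h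
        · rcases lt_trichotomy b c with h' | h' | h'
          · exact main a b c ha hb hc' h h'
          · exact hbc h'
          · rcases lt_trichotomy a c with h'' | h'' | h''
            · exact main a c b ha hc' hb h'' h'
            · exact hac h''
            · exact main c a b hc' ha hb h'' h
        · exact hab h
        · rcases lt_trichotomy a c with h' | h' | h'
          · exact main b a c hb ha hc' h h'
          · exact hac h'
          · rcases lt_trichotomy b c with h'' | h'' | h''
            · exact main b c a hb hc' ha h'' h'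
            · exact hbc h''
            · exact main c b a hc' hb ha h'' h
      calc A.card = ∑ c ∈ A.image (fun j => j / l), (A.filter (fun j => j / l = c)).card :=
            Finset.card_eq_sum_card_image _ _
        _ ≤ ∑ c ∈ A.image (fun j => j / l), l := Finset.sum_le_sum (fun c _ => hfib c)
        _ = (A.image (fun j => j / l)).card * l := by rw [Finset.sum_const, smul_eq_mul]
        _ ≤ 2 * l := Nat.mul_le_mul_right _ hC
    have h1 : ((A.card : ℕ) : ℝ) ≤ 2 * l := by exact_mod_cast hcard
    push_cast
    have h2 : (A.card : ℝ) * (1 / ((m₀ : ℝ) ^ 2 * (p * l))) * ((m₀ : ℝ) ^ 2 * p) =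
        (A.card : ℝ) / l := by
      field_simp
    rw [h2, div_le_iff₀ hlR]
    exact h1

end Pool.Agent.Idx.H70
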